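import Pool.Agent.Lib_helper5.GG.Types

/-!
Law of large numbers for the types of jets, part 2.
-/

namespace Pool.Agent.Lib_helper5.GG

open Finset Filter Topology
open scoped BigOperators

/-- the types (exponent vectors of monomials in `X_(i,l)`) of weight `m`. -/
def typ (k m : ℕ) : Finset (Fin 2 × Fin k → ℕ) :=
  (Fintype.piFinset fun _ => Finset.range (m + 1)).filter fun t =>
    ∑ x, (x.2.val + 1) * t x = m

theorem mem_typ {k m : ℕ} (t : Fin 2 × Fin k → ℕ) :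
    t ∈ typ k m ↔ ∑ x, (x.2.val + 1) * t x = m := by
  classical
  unfold typ
  rw [Finset.mem_filter, Fintype.mem_piFinset]
  refine ⟨fun h => h.2, fun h => ⟨fun x => ?_, h⟩⟩
  rw [Finset.mem_range]
  have h1 : (x.2.val + 1) * t x ≤ ∑ x, (x.2.val + 1) * t x :=
    Finset.single_le_sum (f := fun x : Fin 2 × Fin k => (x.2.val + 1) * t x)
      (fun _ _ => Nat.zero_le _) (Finset.mem_univ x)
  nlinarith [Nat.zero_le (x.2.val * t x)]

/-- the first number `p` of a type. -/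
def num1 {k : ℕ} (t : Fin 2 × Fin k → ℕ) : ℕ := ∑ l, t (0, l)

/-- the second number `a` of a type. -/
def num2 {k : ℕ} (t : Fin 2 × Fin k → ℕ) : ℕ := ∑ l, t (1, l)

/-- the variables of the geometric distribution. -/
noncomputable def xx (k : ℕ) (z : ℝ) (i : Fin 2 × Fin k) : ℝ := z ^ (i.2.val + 1)

theorem wt_xx {k : ℕ} (z : ℝ) (t : Fin 2 × Fin k → ℕ) :
    wt (xx k z) t = z ^ (∑ x, (x.2.val + 1) * t x) := by
  unfold wt xx
  rw [← Finset.prod_pow_eq_pow_sum]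
  exact Finset.prod_congr rfl fun i _ => by rw [pow_mul]

/-- harmonic number. -/
noncomputable def hh (k : ℕ) : ℝ := ∑ l : Fin k, 1 / ((l.val : ℝ) + 1)

/-- sign of a component. -/
def sg {k : ℕ} (i : Fin 2 × Fin k) : ℝ := if i.1 = 0 then 1 else -1

theorem sum_tau {k : ℕ} (t : Fin 2 × Fin k → ℕ) :
    ∑ i, (1 : ℝ) * (t i : ℝ) = (num1 t : ℝ) + num2 t := by
  rw [Fintype.sum_prod_type, Fin.sum_univ_two]
  simp [num1, num2]

theorem sum_sg {k : ℕ} (t : Fin 2 × Fin k → ℕ) :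
    ∑ i, sg i * (t i : ℝ) = (num1 t : ℝ) - num2 t := by
  rw [Fintype.sum_prod_type, Fin.sum_univ_two]
  simp [num1, num2, sg]
  ring

/-- bounds for the mean. -/
theorem mu_lower {k : ℕ} {z : ℝ} (h1 : z < 1) (h0 : 0 < z) (hk : 1 / 2 ≤ z ^ k)
    (i : Fin 2 × Fin k) : 1 / ((i.2.val : ℝ) + 1) / (2 * (1 - z)) ≤ mu (xx k z) i := by
  unfold mu xx
  have hl : i.2.val + 1 ≤ k := i.2.isLt
  have hzl : 1 / 2 ≤ z ^ (i.2.val + 1) :=
    hk.trans (pow_le_pow_of_le_one h0.le h1.le hl)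
  have hz1 : z ^ (i.2.val + 1) < 1 := pow_lt_one₀ h0.le h1 (by omega)
  have hb : 1 + ((i.2.val + 1 : ℕ) : ℝ) * (z - 1) ≤ z ^ (i.2.val + 1) :=
    one_add_mul_sub_le_pow (by linarith) _
  have hb' : 1 - z ^ (i.2.val + 1) ≤ ((i.2.val : ℝ) + 1) * (1 - z) := by
    push_cast at hb
    linarith
  rw [div_div, div_le_div_iff₀ (by have : (0:ℝ) ≤ i.2.val := Nat.cast_nonneg _
                                   have : 0 < 1 - z := by linarith
                                   positivity) (by linarith)]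
  have hpos : (0:ℝ) ≤ ((i.2.val : ℝ) + 1) * (1 - z) := by
    have : (0:ℝ) ≤ i.2.val := Nat.cast_nonneg _
    have : 0 < 1 - z := by linarith
    positivity
  nlinarith

theorem mu_upper {k : ℕ} {z : ℝ} (h1 : z < 1) (h0 : 0 < z) (hk : 1 / 2 ≤ z ^ k)
    (i : Fin 2 × Fin k) : mu (xx k z) i ≤ 1 / ((i.2.val : ℝ) + 1) * (2 / (1 - z)) := by
  unfold mu xx
  have hl : i.2.val + 1 ≤ k := i.2.isLt
  have hz1 : z ^ (i.2.val + 1) < 1 := pow_lt_one₀ h0.le h1 (by omega)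
  have hz0 : 0 < z ^ (i.2.val + 1) := pow_pos h0 _
  -- geometric sum
  have hg : 1 - z ^ (i.2.val + 1) = (1 - z) * ∑ j ∈ Finset.range (i.2.val + 1), z ^ j := by
    have := mul_neg_geom_sum z (i.2.val + 1)
    linarith
  have hs : ((i.2.val : ℝ) + 1) * (1 / 2) ≤ ∑ j ∈ Finset.range (i.2.val + 1), z ^ j := by
    have : ∑ j ∈ Finset.range (i.2.val + 1), (1 / 2 : ℝ) ≤
        ∑ j ∈ Finset.range (i.2.val + 1), z ^ j := by
      refine Finset.sum_le_sum fun j hj => ?_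
      rw [Finset.mem_range] at hj
      exact hk.trans (pow_le_pow_of_le_one h0.le h1.le (by omega))
    simpa using this
  have hz : 0 < 1 - z := by linarith
  have hip : (0:ℝ) < (i.2.val : ℝ) + 1 := by positivity
  have hlow : ((i.2.val : ℝ) + 1) * (1 / 2) * (1 - z) ≤ 1 - z ^ (i.2.val + 1) := by
    rw [hg]
    nlinarith
  rw [div_mul_div_comm, one_mul, div_le_div_iff₀ (by linarith) (by positivity)]
  nlinarith

theorem sum_inv {k : ℕ} : ∑ i : Fin 2 × Fin k, 1 / ((i.2.val : ℝ) + 1) = 2 * hh k := by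
  rw [Fintype.sum_prod_type, Fin.sum_univ_two]
  unfold hh
  ring

theorem sum_inv_sq {k : ℕ} : ∑ i : Fin 2 × Fin k, (1 / ((i.2.val : ℝ) + 1)) ^ 2 ≤ 4 := by
  rw [Fintype.sum_prod_type, Fin.sum_univ_two]
  have h : ∀ n : ℕ, ∑ l ∈ Finset.range (n + 1), (1 / ((l : ℝ) + 1)) ^ 2 ≤
      2 - 1 / ((n : ℝ) + 1) := by
    intro n
    induction n with
    | zero => norm_num
    | succ n ih =>
      rw [Finset.sum_range_succ]
      push_cast
      have e : (n : ℝ) + 1 + 1 = n + 2 := by ring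
      rw [e]
      have h1 : (0 : ℝ) < (n : ℝ) + 1 := by positivity
      have h2 : (0 : ℝ) < (n : ℝ) + 2 := by positivity
      have h3 : (1 / ((n : ℝ) + 2)) ^ 2 ≤ 1 / ((n : ℝ) + 1) - 1 / ((n : ℝ) + 2) := by
        rw [div_sub_div _ _ h1.ne' h2.ne', div_pow, div_le_div_iff₀ (by positivity) (by positivity)]
        nlinarith
      linarith
  have h2 : ∑ l : Fin k, (1 / ((l.val : ℝ) + 1)) ^ 2 ≤ 2 := by
    rw [Fin.sum_univ_eq_sum_range (fun l => (1 / ((l : ℝ) + 1)) ^ 2)]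
    rcases k with _ | k
    · simp
    · refine (h k).trans ?_
      have : (0 : ℝ) ≤ 1 / ((k : ℝ) + 1) := by positivity
      linarith
  linarith

theorem hh_tendsto : Tendsto hh atTop atTop := by
  have h := Real.tendsto_sum_range_one_div_nat_succ_atTop
  have e : hh = fun n => ∑ i ∈ Finset.range n, (1 / ((i : ℝ) + 1) : ℝ) := by
    funext n
    unfold hh
    rw [Fin.sum_univ_eq_sum_range (fun l => 1 / ((l : ℝ) + 1))]
  rw [e]
  exact h

/-- the summand of the law of large numbers. -/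
noncomputable def FF (c0 C1 C2 C3 : ℝ) {k : ℕ} (t : Fin 2 × Fin k → ℕ) : ℝ :=
  c0 * ((num1 t : ℝ) + num2 t) ^ 2 - C1 * ((num1 t : ℝ) - num2 t) ^ 2 -
    C2 * ((num1 t : ℝ) + num2 t) - C3

theorem xx_range {k : ℕ} {z : ℝ} (h1 : z < 1) (h0 : 0 < z) :
    (∀ i : Fin 2 × Fin k, 0 ≤ xx k z i) ∧ ∀ i : Fin 2 × Fin k, xx k z i < 1 :=
  ⟨fun i => pow_nonneg h0.le _, fun i => pow_lt_one₀ h0.le h1 (by omega)⟩

theorem FF_hasSum {k : ℕ} {z : ℝ} (h1 : z < 1) (h0 : 0 < z) (c0 C1 C2 C3 : ℝ) :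
    HasSum (fun t : Fin 2 × Fin k → ℕ => FF c0 C1 C2 C3 t * wt (xx k z) t)
      (ZZ (xx k z) * (c0 * ((∑ i, mu (xx k z) i) ^ 2 + ∑ i, (mu (xx k z) i ^ 2 + mu (xx k z) i)) -
        C1 * ∑ i, (mu (xx k z) i ^ 2 + mu (xx k z) i) - C2 * ∑ i, mu (xx k z) i - C3)) := by
  obtain ⟨hx0, hx1⟩ := xx_range (k := k) h1 h0
  have a1 := (mquad hx0 hx1 (fun _ => 1)).mul_left c0
  have a2 := (mquad hx0 hx1 sg).mul_left C1
  have a3 := (mlin hx0 hx1 (fun _ => 1)).mul_left C2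
  have a4 := (m0 hx0 hx1).mul_left C3
  have h := ((a1.sub a2).sub a3).sub a4
  have s0 : ∑ i : Fin 2 × Fin k, sg i * mu (xx k z) i = 0 := by
    rw [Fintype.sum_prod_type, Fin.sum_univ_two]
    simp [sg, mu, xx]
  have s1 : ∀ i : Fin 2 × Fin k, (sg i : ℝ) ^ 2 = 1 := by
    intro i
    unfold sg
    split_ifs <;> norm_num
  have e1 : (fun t : Fin 2 × Fin k → ℕ => FF c0 C1 C2 C3 t * wt (xx k z) t) =
      fun t => c0 * ((∑ i, (1 : ℝ) * (t i : ℝ)) ^ 2 * wt (xx k z) t) -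
        C1 * ((∑ i, sg i * (t i : ℝ)) ^ 2 * wt (xx k z) t) -
        C2 * ((∑ i, (1 : ℝ) * (t i : ℝ)) * wt (xx k z) t) - C3 * wt (xx k z) t := by
    funext t
    rw [sum_tau, sum_sg]
    unfold FF
    ring
  rw [e1]
  convert! h using 1
  rw [s0]
  simp only [s1, one_mul, one_pow]
  ring

/-- the average is positive for `k` large and `z` near 1. -/
theorem avg_pos {c0 C1 C2 C3 : ℝ} (hc : 0 < c0) (hC1 : 0 ≤ C1) (hC2 : 0 ≤ C2) :
    ∃ k : ℕ, 1 ≤ k ∧ ∃ z : ℝ, 0 < z ∧ z < 1 ∧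
      0 < c0 * ((∑ i : Fin 2 × Fin k, mu (xx k z) i) ^ 2 +
          ∑ i, (mu (xx k z) i ^ 2 + mu (xx k z) i)) -
        C1 * ∑ i, (mu (xx k z) i ^ 2 + mu (xx k z) i) - C2 * ∑ i, mu (xx k z) i - C3 := by
  obtain ⟨k, hk1, hk⟩ : ∃ k : ℕ, 1 ≤ k ∧ (16 * C1 + 1) / c0 ≤ hh k ^ 2 ∧ 1 ≤ hh k := by
    have h1 := (hh_tendsto.eventually_ge_atTop ((16 * C1 + 1) / c0)).and
      ((hh_tendsto.eventually_ge_atTop 1).and (eventually_ge_atTop 1))
    obtain ⟨k, ha, hb, hc'⟩ := h1.exists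
    exact ⟨k, hc', by nlinarith, hb⟩
  obtain ⟨hk2, hk3⟩ := hk
  refine ⟨k, hk1, ?_⟩
  -- choose z
  have hlim1 : Tendsto (fun z : ℝ => z ^ k) (𝓝[<] 1) (𝓝 1) := by
    have : Tendsto (fun z : ℝ => z ^ k) (𝓝 1) (𝓝 (1 ^ k)) := (continuous_pow k).tendsto 1
    rw [one_pow] at this
    exact this.mono_left nhdsWithin_le_nhds
  set A : ℝ := 4 * hh k * (C1 + C2) with hA
  have hlim2 : Tendsto (fun z : ℝ => 1 - A * (1 - z) - C3 * (1 - z) ^ 2) (𝓝[<] 1) (𝓝 1) := by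
    have : Tendsto (fun z : ℝ => 1 - A * (1 - z) - C3 * (1 - z) ^ 2) (𝓝 1)
        (𝓝 (1 - A * (1 - 1) - C3 * (1 - 1) ^ 2)) := by
      apply Continuous.tendsto
      fun_prop
    have e : (1 - A * (1 - 1) - C3 * (1 - 1) ^ 2 : ℝ) = 1 := by ring
    rw [e] at this
    exact this.mono_left nhdsWithin_le_nhds
  have ev1 := hlim1.eventually (lt_mem_nhds (show (1/2 : ℝ) < 1 by norm_num))
  have ev2 := hlim2.eventually (lt_mem_nhds (show (0 : ℝ) < 1 by norm_num))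
  have ev3 : ∀ᶠ z : ℝ in 𝓝[<] 1, 0 < z :=
    nhdsWithin_le_nhds (lt_mem_nhds (show (0 : ℝ) < 1 by norm_num))
  have ev4 : ∀ᶠ z : ℝ in 𝓝[<] 1, z < 1 := self_mem_nhdsWithin
  obtain ⟨z, hz1, hz2, hz3, hz4⟩ := (ev1.and (ev2.and (ev3.and ev4))).exists
  refine ⟨z, hz3, hz4, ?_⟩
  have hw : 0 < 1 - z := by linarith
  have hmu0 : ∀ i : Fin 2 × Fin k, 0 ≤ mu (xx k z) i := fun i =>
    le_trans (by positivity) (mu_lower hz4 hz3 hz1.le i)
  -- lower bound of the mean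
  have hS1 : hh k / (1 - z) ≤ ∑ i : Fin 2 × Fin k, mu (xx k z) i := by
    have : ∑ i : Fin 2 × Fin k, 1 / ((i.2.val : ℝ) + 1) / (2 * (1 - z)) ≤
        ∑ i : Fin 2 × Fin k, mu (xx k z) i :=
      Finset.sum_le_sum fun i _ => mu_lower hz4 hz3 hz1.le i
    rw [← Finset.sum_div, sum_inv] at this
    have e : 2 * hh k / (2 * (1 - z)) = hh k / (1 - z) := by field_simp
    rwa [e] at this
  have hS2 : ∑ i : Fin 2 × Fin k, mu (xx k z) i ≤ 4 * hh k / (1 - z) := by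
    have : ∑ i : Fin 2 × Fin k, mu (xx k z) i ≤
        ∑ i : Fin 2 × Fin k, 1 / ((i.2.val : ℝ) + 1) * (2 / (1 - z)) :=
      Finset.sum_le_sum fun i _ => mu_upper hz4 hz3 hz1.le i
    rw [← Finset.sum_mul, sum_inv] at this
    have e : 2 * hh k * (2 / (1 - z)) = 4 * hh k / (1 - z) := by ring
    rwa [e] at this
  have hQ : ∑ i : Fin 2 × Fin k, mu (xx k z) i ^ 2 ≤ 16 / (1 - z) ^ 2 := by
    have : ∑ i : Fin 2 × Fin k, mu (xx k z) i ^ 2 ≤
        ∑ i : Fin 2 × Fin k, (1 / ((i.2.val : ℝ) + 1)) ^ 2 * (4 / (1 - z) ^ 2) := by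
      refine Finset.sum_le_sum fun i _ => ?_
      have h5 := mu_upper hz4 hz3 hz1.le i
      have h6 := pow_le_pow_left₀ (hmu0 i) h5 2
      calc mu (xx k z) i ^ 2 ≤ (1 / ((i.2.val : ℝ) + 1) * (2 / (1 - z))) ^ 2 := h6
        _ = (1 / ((i.2.val : ℝ) + 1)) ^ 2 * (4 / (1 - z) ^ 2) := by
          rw [mul_pow, div_pow 2]; norm_num
    rw [← Finset.sum_mul] at this
    have h7 : (∑ i : Fin 2 × Fin k, (1 / ((i.2.val : ℝ) + 1)) ^ 2) * (4 / (1 - z) ^ 2) ≤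
        4 * (4 / (1 - z) ^ 2) := mul_le_mul_of_nonneg_right sum_inv_sq (by positivity)
    have e : 4 * (4 / (1 - z) ^ 2) = 16 / (1 - z) ^ 2 := by ring
    linarith
  set S := ∑ i : Fin 2 × Fin k, mu (xx k z) i with hSdef
  set Q := ∑ i : Fin 2 × Fin k, mu (xx k z) i ^ 2 with hQdef
  have hQ0 : 0 ≤ Q := Finset.sum_nonneg fun i _ => sq_nonneg _
  rw [Finset.sum_add_distrib, ← hSdef, ← hQdef]
  have hS0 : 0 ≤ S := Finset.sum_nonneg fun i _ => hmu0 i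
  have hhp : 0 ≤ hh k := by linarith
  -- S^2 >= hh^2/(1-z)^2
  have hSsq : (hh k) ^ 2 / (1 - z) ^ 2 ≤ S ^ 2 := by
    rw [← div_pow]
    exact pow_le_pow_left₀ (by positivity) hS1 2
  have hmain : (16 * C1 + 1) / (1 - z) ^ 2 ≤ c0 * S ^ 2 := by
    have h8 : 16 * C1 + 1 ≤ hh k ^ 2 * c0 := by rwa [div_le_iff₀ hc] at hk2
    calc (16 * C1 + 1) / (1 - z) ^ 2 ≤ (hh k ^ 2 * c0) / (1 - z) ^ 2 := by gcongr
      _ = c0 * (hh k ^ 2 / (1 - z) ^ 2) := by ring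
      _ ≤ c0 * S ^ 2 := mul_le_mul_of_nonneg_left hSsq hc.le
  have hC1Q : C1 * Q ≤ 16 * C1 / (1 - z) ^ 2 := by
    calc C1 * Q ≤ C1 * (16 / (1 - z) ^ 2) := mul_le_mul_of_nonneg_left hQ hC1
      _ = 16 * C1 / (1 - z) ^ 2 := by ring
  have hCS : (C1 + C2) * S ≤ A / (1 - z) := by
    calc (C1 + C2) * S ≤ (C1 + C2) * (4 * hh k / (1 - z)) :=
          mul_le_mul_of_nonneg_left hS2 (by linarith)
      _ = A / (1 - z) := by rw [hA]; ring
  have hfin : 0 < 1 / (1 - z) ^ 2 - A / (1 - z) - C3 := by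
    have e : 1 / (1 - z) ^ 2 - A / (1 - z) - C3 =
        (1 - A * (1 - z) - C3 * (1 - z) ^ 2) / (1 - z) ^ 2 := by
      field_simp
    rw [e]
    positivity
  have e3 : (16 * C1 + 1) / (1 - z) ^ 2 = 16 * C1 / (1 - z) ^ 2 + 1 / (1 - z) ^ 2 := by ring
  have hcs0 : 0 ≤ c0 * (Q + S) := by positivity
  nlinarith

/-- **Law of large numbers for the types of jets.** -/
theorem lln {c0 C1 C2 C3 : ℝ} (hc : 0 < c0) (hC1 : 0 ≤ C1) (hC2 : 0 ≤ C2) (hC3 : 0 ≤ C3) :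
    ∃ k m : ℕ, 1 ≤ k ∧ 1 ≤ m ∧ 0 < ∑ t ∈ typ k m, FF c0 C1 C2 C3 t := by
  classical
  obtain ⟨k, hk, z, hz0, hz1, hav⟩ := avg_pos (C3 := C3) hc hC1 hC2
  refine ⟨k, ?_⟩
  obtain ⟨hx0, hx1⟩ := xx_range (k := k) hz1 hz0
  have hS := FF_hasSum (k := k) hz1 hz0 c0 C1 C2 C3
  have hZ : 0 < ZZ (xx k z) :=
    Finset.prod_pos fun i _ => inv_pos.2 (by have := hx1 i; linarith)
  have hf := hS.tsum_fiberwise (fun t : Fin 2 × Fin k → ℕ => ∑ x, (x.2.val + 1) * t x)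
  by_contra hcon
  push Not at hcon
  have hle : ∀ m : ℕ, ∑' b : (fun t : Fin 2 × Fin k → ℕ => ∑ x, (x.2.val + 1) * t x) ⁻¹' {m},
      FF c0 C1 C2 C3 (b : Fin 2 × Fin k → ℕ) * wt (xx k z) (b : Fin 2 × Fin k → ℕ) ≤ 0 := by
    intro m
    have hset : ((fun t : Fin 2 × Fin k → ℕ => ∑ x, (x.2.val + 1) * t x) ⁻¹' {m}) =
        ((typ k m : Finset (Fin 2 × Fin k → ℕ)) : Set (Fin 2 × Fin k → ℕ)) := by
      ext t
      simp only [Set.mem_preimage, Set.mem_singleton_iff, Finset.mem_coe, mem_typ]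
    rw [hset, Finset.tsum_subtype' (typ k m)
      (fun b => FF c0 C1 C2 C3 b * wt (xx k z) b)]
    have e : ∑ t ∈ typ k m, FF c0 C1 C2 C3 t * wt (xx k z) t =
        (∑ t ∈ typ k m, FF c0 C1 C2 C3 t) * z ^ m := by
      rw [Finset.sum_mul]
      refine Finset.sum_congr rfl fun t ht => ?_
      rw [wt_xx, (mem_typ t).1 ht]
    rw [e]
    refine mul_nonpos_of_nonpos_of_nonneg ?_ (pow_nonneg hz0.le _)
    rcases Nat.eq_zero_or_pos m with rfl | hm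
    · refine Finset.sum_nonpos fun t ht => ?_
      have h0 := (mem_typ t).1 ht
      have ht0 : ∀ x, t x = 0 := by
        intro x
        have h2 := (Finset.sum_eq_zero_iff.1 h0) x (Finset.mem_univ x)
        simpa using h2
      unfold FF num1 num2
      simp [ht0, hC3]
    · exact hcon m hk hm
  have := hasSum_le hle hf hasSum_zero
  have h9 := mul_pos hZ hav
  linarith

end Pool.Agent.Lib_helper5.GG
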