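import Pool.Agent.Lib_helper82.GG.D.All
import Pool.Agent.Lib_helper5.GG.LLN

/-!
The count (part G of the elementary Green-Griffiths theorem).
-/

namespace Pool.Agent.Lib_helper5.GG

open Finset Filter Topology
open scoped BigOperators

/-! ### the number of products -/

theorem sum_rev (M : ℕ) : ∑ a ∈ Finset.range M, ((M - a : ℕ) : ℝ) = (M : ℝ) * (M + 1) / 2 := by
  induction M with
  | zero => simp
  | succ M ih =>
    rw [Finset.sum_range_succ']
    have : ∑ k ∈ Finset.range M, ((M + 1 - (k + 1) : ℕ) : ℝ) =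
        ∑ a ∈ Finset.range M, ((M - a : ℕ) : ℝ) := by
      refine Finset.sum_congr rfl fun k _ => ?_
      rw [Nat.add_sub_add_right]
    rw [this, ih, Nat.sub_zero]
    push_cast
    ring

/-- the index set used for the lower bound. -/
def SI (D N : ℕ) : Finset (Σ _ : ℕ, Σ _ : ℕ, ℕ) :=
  (Finset.range D).sigma fun j => (Finset.range (N + 1 - j)).sigma fun a =>
    Finset.range (N + 1 - j - a)

theorem card_SI (D N : ℕ) : ((SI D N).card : ℝ) =
    ∑ j ∈ Finset.range D, ((N + 1 - j : ℕ) : ℝ) * ((N + 1 - j : ℕ) + 1) / 2 := by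
  unfold SI
  rw [Finset.card_sigma]
  push_cast
  refine Finset.sum_congr rfl fun j _ => ?_
  rw [Finset.card_sigma]
  push_cast
  simp only [Finset.card_range]
  exact sum_rev _

theorem card_SI_le (D N : ℕ) : (SI D N).card ≤ (Pool.Agent.GG.Idx D N).card := by
  classical
  refine Finset.card_le_card_of_injOn
    (fun s => (s.1, N - s.1 - s.2.1 - s.2.2, s.2.1, s.2.2)) ?_ ?_
  · intro s hs
    have hs' := Finset.mem_coe.1 hs
    simp only [SI, Finset.mem_sigma, Finset.mem_range] at hs'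
    obtain ⟨h1, h2, h3⟩ := hs'
    refine Finset.mem_coe.2 ?_
    simp only [Pool.Agent.GG.Idx, Finset.mem_filter, Finset.mem_product,
      Finset.mem_range]
    refine ⟨⟨h1, ?_, ?_, ?_⟩, ?_⟩ <;> omega
  · intro s hs s' hs' h
    obtain ⟨j, a, c⟩ := s
    obtain ⟨j', a', c'⟩ := s'
    simp only [Prod.mk.injEq] at h
    obtain ⟨h1, -, h2, h3⟩ := h
    subst h1; subst h2; subst h3
    rfl

theorem card_Idx (D N : ℕ) : (D : ℝ) * (N : ℝ) ^ 2 / 2 - (D : ℝ) ^ 2 * N ≤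
    ((Pool.Agent.GG.Idx D N).card : ℝ) := by
  have h1 : ((SI D N).card : ℝ) ≤ ((Pool.Agent.GG.Idx D N).card : ℝ) := by
    exact_mod_cast card_SI_le D N
  refine le_trans ?_ h1
  rw [card_SI]
  have h2 : ∑ j ∈ Finset.range D, ((N : ℝ) ^ 2 / 2 - D * N) ≤
      ∑ j ∈ Finset.range D, ((N + 1 - j : ℕ) : ℝ) * ((N + 1 - j : ℕ) + 1) / 2 := by
    refine Finset.sum_le_sum fun j hj => ?_
    rw [Finset.mem_range] at hj
    have hj' : (j : ℝ) ≤ D := by exact_mod_cast hj.le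
    have hN : (0 : ℝ) ≤ N := Nat.cast_nonneg N
    have hj0 : (0 : ℝ) ≤ j := Nat.cast_nonneg j
    rcases le_total j N with hjN | hjN
    · have e : ((N + 1 - j : ℕ) : ℝ) = (N : ℝ) + 1 - j := by
        rw [Nat.cast_sub (by omega)]; push_cast; ring
      rw [e]
      have : (j : ℝ) ≤ N := by exact_mod_cast hjN
      nlinarith
    · have e0 : (0 : ℝ) ≤ ((N + 1 - j : ℕ) : ℝ) := Nat.cast_nonneg _
      have h5 : (N : ℝ) ≤ j := by exact_mod_cast hjN
      have h6 : (N : ℝ) ^ 2 / 2 - D * N ≤ 0 := by nlinarith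
      have h7 : 0 ≤ ((N + 1 - j : ℕ) : ℝ) * ((N + 1 - j : ℕ) + 1) / 2 := by positivity
      linarith
  rw [Finset.sum_const, Finset.card_range, nsmul_eq_mul] at h2
  calc (D : ℝ) * (N : ℝ) ^ 2 / 2 - (D : ℝ) ^ 2 * N = D * ((N : ℝ) ^ 2 / 2 - D * N) := by ring
    _ ≤ _ := h2

/-! ### the number of conditions -/

theorem sum_Icc_cast (R : ℕ) : ∑ r ∈ Finset.Icc 1 R, (r : ℝ) = (R : ℝ) * (R + 1) / 2 := by
  induction R with
  | zero => simp
  | succ R ih =>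
    rw [Finset.sum_Icc_succ_top (by omega), ih]
    push_cast
    ring

/-- the conditions along `H`. -/
theorem condH (b D : ℕ) (hb : 0 < b) (κ : ℝ) (p a : ℕ) :
    ∑ r ∈ Finset.Icc 1 p, ((D : ℝ) / b *
      max ((b : ℝ) * (r - p) + (b + 1) * a + (3 * b + 1) * (2 * b * ((p : ℝ) + a) - a)) 0 + κ) =
    (D : ℝ) / b * (b * (p * ((p : ℝ) + 1) / 2) + p * (-(b * p) + (b + 1) * a +
      (3 * b + 1) * (2 * b * ((p : ℝ) + a) - a))) + κ * p := by
  have hb' : (1 : ℝ) ≤ b := by exact_mod_cast hb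
  have hp : (0 : ℝ) ≤ p := Nat.cast_nonneg p
  have ha : (0 : ℝ) ≤ a := Nat.cast_nonneg a
  have h1 : ∀ r ∈ Finset.Icc 1 p, ((D : ℝ) / b *
      max ((b : ℝ) * (r - p) + (b + 1) * a + (3 * b + 1) * (2 * b * ((p : ℝ) + a) - a)) 0 + κ) =
      (D : ℝ) / b * b * r + ((D : ℝ) / b * (-(b * p) + (b + 1) * a +
      (3 * b + 1) * (2 * b * ((p : ℝ) + a) - a)) + κ) := by
    intro r _
    have hr : (0 : ℝ) ≤ r := Nat.cast_nonneg r
    rw [max_eq_left]
    · ring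
    · have e : (b : ℝ) * (r - p) + (b + 1) * a + (3 * b + 1) * (2 * b * ((p : ℝ) + a) - a) =
          b * r + (b + 1) * a + (3 * b + 1) * (2 * b - 1) * a + ((3 * b + 1) * 2 - 1) * b * p := by
        ring
      rw [e]
      have h3 : (0 : ℝ) ≤ 2 * b - 1 := by linarith
      have h4 : (0 : ℝ) ≤ (3 * b + 1) * 2 - 1 := by linarith
      positivity
  rw [Finset.sum_congr rfl h1, Finset.sum_add_distrib, ← Finset.mul_sum, sum_Icc_cast,
    Finset.sum_const, Nat.card_Icc, nsmul_eq_mul]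
  push_cast [Nat.add_sub_cancel]
  ring

/-- the conditions along `R`. -/
theorem condR (b D : ℕ) (κ : ℝ) (p a R : ℕ) :
    ∑ r ∈ Finset.Icc 1 R, ((3 * (b : ℝ) + 1) * (D : ℝ) / b ^ 2 *
      max ((3 * b + 1) * ((r : ℝ) - p + a) + a) 0 + κ) ≤
    (3 * (b : ℝ) + 1) * (D : ℝ) / b ^ 2 * ((3 * b + 1) * (R * ((R : ℝ) + 1) / 2) +
      R * ((3 * b + 1) * ((a : ℝ) - p) + a) + (3 * b + 1) * ((p : ℝ) - a) ^ 2) + κ * R := by
  set q : ℝ := 3 * (b : ℝ) + 1 with hq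
  have hq0 : 0 ≤ q := by positivity
  have ha : (0 : ℝ) ≤ a := Nat.cast_nonneg a
  have h1 : ∀ r ∈ Finset.Icc 1 R, (q * (D : ℝ) / b ^ 2 *
      max (q * ((r : ℝ) - p + a) + a) 0 + κ) ≤
      q * (D : ℝ) / b ^ 2 * q * r + (q * (D : ℝ) / b ^ 2 * (q * ((a : ℝ) - p) + a) + κ) +
      q * (D : ℝ) / b ^ 2 * (if r ≤ p - a then q * |(p : ℝ) - a| else 0) := by
    intro r _
    have hr : (0 : ℝ) ≤ r := Nat.cast_nonneg r
    have h2 : max (q * ((r : ℝ) - p + a) + a) 0 ≤ q * r + (q * ((a : ℝ) - p) + a) +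
        (if r ≤ p - a then q * |(p : ℝ) - a| else 0) := by
      refine max_le ?_ ?_
      · have : 0 ≤ (if r ≤ p - a then q * |(p : ℝ) - a| else 0) := by
          split_ifs <;> positivity
        linarith
      · split_ifs with h
        · have h3 : (p : ℝ) - a ≤ |(p : ℝ) - a| := le_abs_self _
          have h4 := mul_le_mul_of_nonneg_left h3 hq0
          have h5 : 0 ≤ q * r := by positivity
          linarith
        · have h6 : p < r + a := by omega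
          have h7 : (p : ℝ) ≤ r + a := by exact_mod_cast h6.le
          have h8 : 0 ≤ q * (r + a - p) := mul_nonneg hq0 (by linarith)
          linarith
    have h9 : 0 ≤ q * (D : ℝ) / b ^ 2 := by positivity
    have h10 := mul_le_mul_of_nonneg_left h2 h9
    linarith
  refine (Finset.sum_le_sum h1).trans ?_
  rw [Finset.sum_add_distrib, Finset.sum_add_distrib, ← Finset.mul_sum, sum_Icc_cast,
    Finset.sum_const, Nat.card_Icc, nsmul_eq_mul, ← Finset.mul_sum]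
  have h11 : ∑ r ∈ Finset.Icc 1 R, (if r ≤ p - a then q * |(p : ℝ) - a| else 0) ≤
      q * ((p : ℝ) - a) ^ 2 := by
    rw [← Finset.sum_filter, Finset.sum_const, nsmul_eq_mul]
    have h12 : ((Finset.Icc 1 R).filter fun r => r ≤ p - a).card ≤ p - a := by
      calc ((Finset.Icc 1 R).filter fun r => r ≤ p - a).card ≤ (Finset.Icc 1 (p - a)).card := by
            refine Finset.card_le_card fun r hr => ?_
            simp only [Finset.mem_filter, Finset.mem_Icc] at hr ⊢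
            exact ⟨hr.1.1, hr.2⟩
        _ = p - a := by simp
    have h13 : (((Finset.Icc 1 R).filter fun r => r ≤ p - a).card : ℝ) ≤ |(p : ℝ) - a| := by
      rcases le_total a p with hap | hap
      · calc (((Finset.Icc 1 R).filter fun r => r ≤ p - a).card : ℝ) ≤ ((p - a : ℕ) : ℝ) := by
              exact_mod_cast h12
          _ = (p : ℝ) - a := by rw [Nat.cast_sub hap]
          _ ≤ _ := le_abs_self _
      · have : p - a = 0 := by omega
        rw [this] at h12 ⊢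
        have h14 := Nat.le_zero.1 h12
        rw [h14]
        simp
    calc (((Finset.Icc 1 R).filter fun r => r ≤ p - a).card : ℝ) * (q * |(p : ℝ) - a|) ≤
        |(p : ℝ) - a| * (q * |(p : ℝ) - a|) := mul_le_mul_of_nonneg_right h13 (by positivity)
      _ = q * |(p : ℝ) - a| ^ 2 := by ring
      _ = q * ((p : ℝ) - a) ^ 2 := by rw [sq_abs]
  have h9 : 0 ≤ q * (D : ℝ) / b ^ 2 := by positivity
  have h15 := mul_le_mul_of_nonneg_left h11 h9
  push_cast [Nat.add_sub_cancel]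
  calc _ ≤ q * (D : ℝ) / b ^ 2 * q * (R * ((R : ℝ) + 1) / 2) + R * (q * (D : ℝ) / b ^ 2 *
        (q * ((a : ℝ) - p) + a) + κ) + q * (D : ℝ) / b ^ 2 * (q * ((p : ℝ) - a) ^ 2) := by
        linarith
    _ = _ := by ring

/-! ### the count -/

/-- the quadratic identity: the constant is `1 / (8 b ^ 2)`. -/
theorem quad_id (b D p a : ℝ) (hb : b ≠ 0) :
    D * ((6 * b + 1) * (p + a)) ^ 2 / 2 -
      D / b * (b * (p * p / 2) + p * (-(b * p) + (b + 1) * a +
        (3 * b + 1) * (2 * b * (p + a) - a))) -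
      (3 * b + 1) * D / b ^ 2 * ((3 * b + 1) * ((2 * b * (p + a) - p) ^ 2 / 2) +
        (2 * b * (p + a) - p) * ((3 * b + 1) * (a - p) + a)) =
    D / (8 * b ^ 2) * (p + a) ^ 2 +
      D * (((6 * b + 1) ^ 2 / 2 + 1 / 2 - 2 * (3 * b + 1) -
          (3 * b + 1) / b ^ 2 * ((3 * b + 1) * (2 * b - 1) ^ 2 / 2 - (3 * b + 1) * (2 * b - 1)) -
        ((6 * b + 1) ^ 2 / 2 - (3 * b + 1) / b ^ 2 * (2 * b ^ 2 * (3 * b + 1) +
          2 * b * (3 * b + 2)))) / 2) * ((p + a) * (p - a)) +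
      D * (((6 * b + 1) ^ 2 / 2 + 1 / 2 - 2 * (3 * b + 1) -
          (3 * b + 1) / b ^ 2 * ((3 * b + 1) * (2 * b - 1) ^ 2 / 2 - (3 * b + 1) * (2 * b - 1)) +
        ((6 * b + 1) ^ 2 / 2 - (3 * b + 1) / b ^ 2 * (2 * b ^ 2 * (3 * b + 1) +
          2 * b * (3 * b + 2))) -
        ((6 * b + 1) ^ 2 - 1 / b * ((b + 1) + 2 * b * (3 * b + 1) - (3 * b + 1)) -
          (3 * b + 1) / b ^ 2 * (2 * b * (2 * b - 1) * (3 * b + 1) +
            (2 * b - 1) * (3 * b + 2) - 2 * b * (3 * b + 1)))) / 4) * (p - a) ^ 2 := by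
  field_simp
  ring

/-- the lower bound for one type. -/
theorem count_lower (b D : ℕ) (hb : 0 < b) (hD : 0 < D) (κ : ℝ) :
    ∃ c0 C1 C2 : ℝ, 0 < c0 ∧ 0 ≤ C1 ∧ 0 ≤ C2 ∧ ∀ p a : ℕ,
      c0 * ((p : ℝ) + a) ^ 2 - C1 * ((p : ℝ) - a) ^ 2 - C2 * ((p : ℝ) + a) ≤
      ((Pool.Agent.GG.Idx D ((6 * b + 1) * (p + a))).card : ℝ) -
        (∑ r ∈ Finset.Icc 1 p, ((D : ℝ) / b *
          max ((b : ℝ) * (r - p) + (b + 1) * a + (3 * b + 1) * (2 * b * ((p : ℝ) + a) - a)) 0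
            + κ) +
        ∑ r ∈ Finset.Icc 1 (2 * b * (p + a) - p), ((3 * (b : ℝ) + 1) * (D : ℝ) / b ^ 2 *
          max ((3 * b + 1) * ((r : ℝ) - p + a) + a) 0 + κ)) := by
  have hb' : (1 : ℝ) ≤ b := by exact_mod_cast hb
  have hD' : (1 : ℝ) ≤ D := by exact_mod_cast hD
  have hb0 : (b : ℝ) ≠ 0 := by positivity
  set B : ℝ := (b : ℝ) with hB
  set E : ℝ := (D : ℝ) with hE
  obtain ⟨α, hα⟩ : ∃ α : ℝ, α = (((6 * B + 1) ^ 2 / 2 + 1 / 2 - 2 * (3 * B + 1) -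
          (3 * B + 1) / B ^ 2 * ((3 * B + 1) * (2 * B - 1) ^ 2 / 2 - (3 * B + 1) * (2 * B - 1)) -
        ((6 * B + 1) ^ 2 / 2 - (3 * B + 1) / B ^ 2 * (2 * B ^ 2 * (3 * B + 1) +
          2 * B * (3 * B + 2)))) / 2) := ⟨_, rfl⟩
  obtain ⟨β, hβ⟩ : ∃ β : ℝ, β = (((6 * B + 1) ^ 2 / 2 + 1 / 2 - 2 * (3 * B + 1) -
          (3 * B + 1) / B ^ 2 * ((3 * B + 1) * (2 * B - 1) ^ 2 / 2 - (3 * B + 1) * (2 * B - 1)) +
        ((6 * B + 1) ^ 2 / 2 - (3 * B + 1) / B ^ 2 * (2 * B ^ 2 * (3 * B + 1) +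
          2 * B * (3 * B + 2))) -
        ((6 * B + 1) ^ 2 - 1 / B * ((B + 1) + 2 * B * (3 * B + 1) - (3 * B + 1)) -
          (3 * B + 1) / B ^ 2 * (2 * B * (2 * B - 1) * (3 * B + 1) +
            (2 * B - 1) * (3 * B + 2) - 2 * B * (3 * B + 1)))) / 4) := ⟨_, rfl⟩
  set q : ℝ := 3 * B + 1 with hq
  have hq0 : 0 ≤ q := by positivity
  set w : ℝ := q * E / B ^ 2 with hw
  have hw0 : 0 ≤ w := by positivity
  refine ⟨E / (16 * B ^ 2), E * (4 * B ^ 2 * α ^ 2 + |β|) + w * q,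
    E ^ 2 * (6 * B + 1) + E / 2 + |κ| + w * q * B + |κ| * (2 * B), by positivity,
    by positivity, by positivity, fun p a => ?_⟩
  have hp : (0 : ℝ) ≤ p := Nat.cast_nonneg p
  have ha : (0 : ℝ) ≤ a := Nat.cast_nonneg a
  have hR : ((2 * b * (p + a) - p : ℕ) : ℝ) = 2 * B * ((p : ℝ) + a) - p := by
    rw [Nat.cast_sub]
    · push_cast
      ring
    · nlinarith [Nat.zero_le a, Nat.zero_le p]
  have k1 := card_Idx D ((6 * b + 1) * (p + a))
  have k2 := condH b D hb κ p a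
  have k3 := condR b D κ p a (2 * b * (p + a) - p)
  rw [hR] at k3
  rw [← hB, ← hE] at k2 k3
  rw [k2]
  have k4 := quad_id B E p a hb0
  rw [← hα, ← hβ] at k4
  push_cast at k1
  rw [← hB, ← hE] at k1
  rw [← hq] at k3 k4 ⊢
  rw [← hw] at k3 k4
  -- square completion
  have k5 : 0 ≤ E * (((p : ℝ) + a) / (4 * B) + 2 * B * α * ((p : ℝ) - a)) ^ 2 := by positivity
  have k6 : E * (((p : ℝ) + a) / (4 * B) + 2 * B * α * ((p : ℝ) - a)) ^ 2 =
      E / (16 * B ^ 2) * ((p : ℝ) + a) ^ 2 + E * α * (((p : ℝ) + a) * ((p : ℝ) - a)) +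
        E * (4 * B ^ 2 * α ^ 2) * ((p : ℝ) - a) ^ 2 := by
    field_simp
    ring
  have k7 : -(E * |β| * ((p : ℝ) - a) ^ 2) ≤ E * β * ((p : ℝ) - a) ^ 2 := by
    have : -|β| ≤ β := neg_abs_le β
    have h2 : 0 ≤ E * ((p : ℝ) - a) ^ 2 := by positivity
    nlinarith
  have k8 : E / (8 * B ^ 2) * ((p : ℝ) + a) ^ 2 = E / (16 * B ^ 2) * ((p : ℝ) + a) ^ 2 +
      E / (16 * B ^ 2) * ((p : ℝ) + a) ^ 2 := by
    field_simp
    ring
  -- the linear terms
  have k9 : κ * p ≤ |κ| * ((p : ℝ) + a) := by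
    have h1 : κ * p ≤ |κ| * p := mul_le_mul_of_nonneg_right (le_abs_self κ) hp
    have h2 : 0 ≤ |κ| * a := by positivity
    linarith
  have hR0 : 0 ≤ 2 * B * ((p : ℝ) + a) - p := by rw [← hR]; exact Nat.cast_nonneg _
  have k10 : κ * (2 * B * ((p : ℝ) + a) - p) ≤ |κ| * (2 * B) * ((p : ℝ) + a) := by
    have h1 : κ * (2 * B * ((p : ℝ) + a) - p) ≤ |κ| * (2 * B * ((p : ℝ) + a) - p) :=
      mul_le_mul_of_nonneg_right (le_abs_self κ) hR0
    have h2 : 0 ≤ |κ| * p := by positivity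
    linarith
  have k11 : w * (q * ((2 * B * ((p : ℝ) + a) - p) / 2)) ≤ w * q * B * ((p : ℝ) + a) := by
    have h1 : 0 ≤ w * q * p := by positivity
    have e : w * (q * ((2 * B * ((p : ℝ) + a) - p) / 2)) = w * q * B * ((p : ℝ) + a) -
        w * q * p / 2 := by ring
    rw [e]
    linarith
  have k12 : E / B * (B * ((p : ℝ) / 2)) ≤ E / 2 * ((p : ℝ) + a) := by
    have e : E / B * (B * ((p : ℝ) / 2)) = E / 2 * p := by field_simp
    rw [e]
    have : 0 ≤ E / 2 * a := by positivity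
    linarith
  linarith [k1, k3, k4, k5, k6, k7, k8, k9, k10, k11, k12]

/-- **Part G.** -/
theorem gg_count_pr (b D : ℕ) (hb : 0 < b) (hD : 0 < D) (κ : ℝ) : ∃ k m : ℕ, 0 < m ∧
    0 < ∑ t ∈ Pool.Agent.GG.Ty k m,
      (((Pool.Agent.GG.Idx D ((6 * b + 1) * Pool.Agent.GG.dg t)).card : ℝ) -
        Pool.Agent.GG.cond b D κ t) := by
  obtain ⟨c0, C1, C2, hc0, hC1, hC2, H⟩ := count_lower b D hb hD κ
  obtain ⟨k, m, hk, hm, hpos⟩ := lln (C3 := 0) hc0 hC1 hC2 le_rfl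
  refine ⟨k, m, hm, lt_of_lt_of_le hpos ?_⟩
  unfold Pool.Agent.GG.Ty
  rw [Finset.sum_map]
  have hset : ((Fintype.piFinset fun _ : Fin 2 × Fin k => Finset.range (m + 1)).filter
      fun t => Pool.Agent.GG.wt t = m) = typ k m := by
    unfold typ Pool.Agent.GG.wt
    rfl
  rw [hset]
  refine Finset.sum_le_sum fun t _ => ?_
  have hdg : Pool.Agent.GG.dg (Finsupp.equivFunOnFinite.symm t : Fin 2 × Fin k → ℕ) =
      num1 t + num2 t := by
    unfold Pool.Agent.GG.dg num1 num2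
    rw [Fintype.sum_prod_type, Fin.sum_univ_two]
    rfl
  have hn0 : Pool.Agent.GG.nj 0 (Finsupp.equivFunOnFinite.symm t : Fin 2 × Fin k → ℕ) =
      num1 t := rfl
  have hn1 : Pool.Agent.GG.nj 1 (Finsupp.equivFunOnFinite.symm t : Fin 2 × Fin k → ℕ) =
      num2 t := rfl
  have h := H (num1 t) (num2 t)
  simp only [Equiv.coe_toEmbedding]
  unfold Pool.Agent.GG.cond
  rw [hdg, hn0, hn1]
  push_cast
  unfold FF
  linarith


end Pool.Agent.Lib_helper5.GG
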