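import Mathlib

/-!
Law of large numbers for the types of jets (part G of the elementary Green-Griffiths
theorem): independent geometric variables.
-/

namespace Pool.Agent.Lib_helper5.GG

open Finset Filter Topology
open scoped BigOperators

/-- Product of series over a finite index set. -/
theorem pi_hasSum {ι : Type} [Fintype ι] (f : ι → ℕ → ℝ) (a : ι → ℝ)
    (h0 : ∀ i n, 0 ≤ f i n) (hf : ∀ i, HasSum (f i) (a i)) :
    HasSum (fun τ : ι → ℕ => ∏ i, f i (τ i)) (∏ i, a i) := by
  classical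
  revert f a h0 hf
  refine Fintype.induction_empty_option
    (P := fun (ι : Type) [Fintype ι] => ∀ (f : ι → ℕ → ℝ) (a : ι → ℝ),
      (∀ i n, 0 ≤ f i n) → (∀ i, HasSum (f i) (a i)) →
      HasSum (fun τ : ι → ℕ => ∏ i, f i (τ i)) (∏ i, a i)) ?_ ?_ ?_ ι
  · intro α β _ e ih f a h0 hf
    let _ := Fintype.ofEquiv β e.symm
    have := ih (fun i => f (e i)) (fun i => a (e i)) (fun i n => h0 _ _) (fun i => hf _)
    have e2 : (α → ℕ) ≃ (β → ℕ) := Equiv.arrowCongr e (Equiv.refl ℕ)
    rw [← (Equiv.arrowCongr e (Equiv.refl ℕ)).hasSum_iff]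
    convert this using 1
    · ext τ
      simp only [Function.comp_apply, Equiv.arrowCongr_apply, Equiv.coe_refl, id_eq]
      rw [← Equiv.prod_comp e]
      simp
    · rw [← Equiv.prod_comp e]
  · intro f a h0 hf
    simp only [Finset.univ_eq_empty, Finset.prod_empty]
    exact hasSum_unique _
  · intro α _ ih f a h0 hf
    have h1 := ih (fun i => f (some i)) (fun i => a (some i)) (fun i n => h0 _ _) (fun i => hf _)
    have h2 := hf none
    have h3 : Summable (fun p : ℕ × (α → ℕ) => f none p.1 * ∏ i, f (some i) (p.2 i)) :=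
      h2.summable.mul_of_nonneg h1.summable (fun n => h0 _ _)
        (fun τ => Finset.prod_nonneg fun i _ => h0 _ _)
    have h4 := h2.mul h1 h3
    rw [Fintype.prod_option]
    let E : (ℕ × (α → ℕ)) ≃ (Option α → ℕ) :=
      { toFun := fun p o => o.elim p.1 p.2
        invFun := fun g => (g none, fun i => g (some i))
        left_inv := fun p => by simp
        right_inv := fun g => by
          funext o
          cases o <;> rfl }
    rw [← E.hasSum_iff]
    have h5 : ((fun τ : Option α → ℕ => ∏ i, f i (τ i)) ∘ E) =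
        fun x : ℕ × (α → ℕ) => f none x.1 * ∏ i, f (some i) (x.2 i) := by
      funext p
      simp [E, Fintype.prod_option]
    rw [h5]
    exact h4

/-! ### One geometric variable -/

theorem geo0 {x : ℝ} (h0 : 0 ≤ x) (h1 : x < 1) :
    HasSum (fun n : ℕ => x ^ n) (1 - x)⁻¹ := hasSum_geometric_of_lt_one h0 h1

theorem geo1 {x : ℝ} (h0 : 0 ≤ x) (h1 : x < 1) :
    HasSum (fun n : ℕ => (n : ℝ) * x ^ n) ((1 - x)⁻¹ * (x / (1 - x))) := by
  have h := hasSum_coe_mul_geometric_of_norm_lt_one (𝕜 := ℝ) (r := x)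
    (by rwa [Real.norm_of_nonneg h0])
  have hx : (1 - x) ≠ 0 := by linarith
  have e : (1 - x)⁻¹ * (x / (1 - x)) = x / (1 - x) ^ 2 := by
    field_simp
  rw [e]
  exact h

theorem geo2 {x : ℝ} (h0 : 0 ≤ x) (h1 : x < 1) :
    HasSum (fun n : ℕ => (n : ℝ) * n * x ^ n)
      ((1 - x)⁻¹ * (2 * (x / (1 - x)) ^ 2 + x / (1 - x))) := by
  have hn : ‖x‖ < 1 := by rwa [Real.norm_of_nonneg h0]
  have h2 := hasSum_choose_mul_geometric_of_norm_lt_one (𝕜 := ℝ) 2 hn
  have h1' := hasSum_choose_mul_geometric_of_norm_lt_one (𝕜 := ℝ) 1 hn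
  have h0' := geo0 h0 h1
  have h := ((h2.mul_left 2).sub (h1'.mul_left 3)).add h0'
  have hx : (1 - x) ≠ 0 := by linarith
  have e1 : (fun n : ℕ => (n : ℝ) * n * x ^ n) = fun b : ℕ =>
      2 * (((b + 2).choose 2 : ℝ) * x ^ b) - 3 * (((b + 1).choose 1 : ℝ) * x ^ b) + x ^ b := by
    funext n
    have e2 : ((n + 2).choose 2 : ℝ) = ((n : ℝ) + 2) * (n + 1) / 2 := by
      rw [Nat.cast_choose_two]
      push_cast
      ring
    rw [e2]
    simp only [Nat.choose_one_right]
    push_cast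
    ring
  have e3 : (1 - x)⁻¹ * (2 * (x / (1 - x)) ^ 2 + x / (1 - x)) =
      2 * (1 / (1 - x) ^ (2 + 1)) - 3 * (1 / (1 - x) ^ (1 + 1)) + (1 - x)⁻¹ := by
    field_simp
    ring
  rw [e1, e3]
  exact h

/-! ### Several geometric variables -/

variable {ι : Type} [Fintype ι]

/-- mean of a geometric variable. -/
noncomputable def mu (x : ι → ℝ) (i : ι) : ℝ := x i / (1 - x i)

/-- total mass. -/
noncomputable def ZZ (x : ι → ℝ) : ℝ := ∏ i, (1 - x i)⁻¹

/-- weight of a type. -/
noncomputable def wt (x : ι → ℝ) (τ : ι → ℕ) : ℝ := ∏ i, x i ^ τ i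

theorem m0 {x : ι → ℝ} (h0 : ∀ i, 0 ≤ x i) (h1 : ∀ i, x i < 1) :
    HasSum (wt x) (ZZ x) :=
  pi_hasSum (fun i n => x i ^ n) _ (fun i n => pow_nonneg (h0 i) n) fun i => geo0 (h0 i) (h1 i)

theorem m1 {x : ι → ℝ} (h0 : ∀ i, 0 ≤ x i) (h1 : ∀ i, x i < 1) (i : ι) :
    HasSum (fun τ : ι → ℕ => (τ i : ℝ) * wt x τ) (ZZ x * mu x i) := by
  classical
  have h := pi_hasSum (fun l n => if l = i then (n : ℝ) * x l ^ n else x l ^ n)
    (fun l => (1 - x l)⁻¹ * if l = i then mu x l else 1)
    (fun l n => by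
      have := pow_nonneg (h0 l) n
      split_ifs <;> positivity)
    (fun l => by
      by_cases hl : l = i
      · simp only [hl, if_true]
        exact geo1 (h0 i) (h1 i)
      · simp only [hl, if_false, mul_one]
        exact geo0 (h0 l) (h1 l))
  have e1 : (fun τ : ι → ℕ => (τ i : ℝ) * wt x τ) =
      fun τ : ι → ℕ => ∏ l, if l = i then (τ l : ℝ) * x l ^ τ l else x l ^ τ l := by
    funext τ
    have : ∀ l, (if l = i then (τ l : ℝ) * x l ^ τ l else x l ^ τ l) =
        (if l = i then (τ l : ℝ) else 1) * x l ^ τ l := by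
      intro l; split_ifs <;> ring
    simp_rw [this, Finset.prod_mul_distrib, wt]
    simp
  have e2 : ZZ x * mu x i = ∏ l, (1 - x l)⁻¹ * (if l = i then mu x l else 1) := by
    rw [Finset.prod_mul_distrib, ZZ]
    simp
  rw [e1, e2]
  exact h

theorem m2 {x : ι → ℝ} (h0 : ∀ i, 0 ≤ x i) (h1 : ∀ i, x i < 1) (i j : ι) (hij : i ≠ j) :
    HasSum (fun τ : ι → ℕ => (τ i : ℝ) * (τ j : ℝ) * wt x τ) (ZZ x * (mu x i * mu x j)) := by
  classical
  have h := pi_hasSum (fun l n => if l = i ∨ l = j then (n : ℝ) * x l ^ n else x l ^ n)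
    (fun l => (1 - x l)⁻¹ * ((if l = i then mu x l else 1) * (if l = j then mu x l else 1)))
    (fun l n => by
      have := pow_nonneg (h0 l) n
      split_ifs <;> positivity)
    (fun l => by
      by_cases hl : l = i
      · subst hl
        simp only [true_or, if_true, hij, if_false, mul_one]
        exact geo1 (h0 l) (h1 l)
      · by_cases hj : l = j
        · subst hj
          simp only [or_true, if_true, hl, if_false, one_mul]
          exact geo1 (h0 l) (h1 l)
        · simp only [hl, hj, or_self, if_false, mul_one]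
          exact geo0 (h0 l) (h1 l))
  have e1 : (fun τ : ι → ℕ => (τ i : ℝ) * (τ j : ℝ) * wt x τ) =
      fun τ : ι → ℕ => ∏ l, if l = i ∨ l = j then (τ l : ℝ) * x l ^ τ l else x l ^ τ l := by
    funext τ
    have : ∀ l, (if l = i ∨ l = j then (τ l : ℝ) * x l ^ τ l else x l ^ τ l) =
        (if l = i then (τ l : ℝ) else 1) * (if l = j then (τ l : ℝ) else 1) * x l ^ τ l := by
      intro l
      by_cases hl : l = i
      · subst hl
        simp [hij]
      · by_cases hj : l = j
        · subst hj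
          simp [hl]
        · simp [hl, hj]
    simp_rw [this, Finset.prod_mul_distrib, wt]
    simp
  have e2 : ZZ x * (mu x i * mu x j) = ∏ l, (1 - x l)⁻¹ *
      ((if l = i then mu x l else 1) * (if l = j then mu x l else 1)) := by
    rw [Finset.prod_mul_distrib, Finset.prod_mul_distrib, ZZ]
    simp
  rw [e1, e2]
  exact h

theorem m3 {x : ι → ℝ} (h0 : ∀ i, 0 ≤ x i) (h1 : ∀ i, x i < 1) (i : ι) :
    HasSum (fun τ : ι → ℕ => (τ i : ℝ) * (τ i : ℝ) * wt x τ)
      (ZZ x * (2 * mu x i ^ 2 + mu x i)) := by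
  classical
  have h := pi_hasSum (fun l n => if l = i then (n : ℝ) * n * x l ^ n else x l ^ n)
    (fun l => (1 - x l)⁻¹ * if l = i then 2 * mu x l ^ 2 + mu x l else 1)
    (fun l n => by
      have := pow_nonneg (h0 l) n
      split_ifs <;> positivity)
    (fun l => by
      by_cases hl : l = i
      · simp only [hl, if_true]
        exact geo2 (h0 i) (h1 i)
      · simp only [hl, if_false, mul_one]
        exact geo0 (h0 l) (h1 l))
  have e1 : (fun τ : ι → ℕ => (τ i : ℝ) * (τ i : ℝ) * wt x τ) =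
      fun τ : ι → ℕ => ∏ l, if l = i then (τ l : ℝ) * τ l * x l ^ τ l else x l ^ τ l := by
    funext τ
    have : ∀ l, (if l = i then (τ l : ℝ) * τ l * x l ^ τ l else x l ^ τ l) =
        (if l = i then (τ l : ℝ) * τ l else 1) * x l ^ τ l := by
      intro l; split_ifs <;> ring
    simp_rw [this, Finset.prod_mul_distrib, wt]
    simp
  have e2 : ZZ x * (2 * mu x i ^ 2 + mu x i) =
      ∏ l, (1 - x l)⁻¹ * (if l = i then 2 * mu x l ^ 2 + mu x l else 1) := by
    rw [Finset.prod_mul_distrib, ZZ]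
    simp
  rw [e1, e2]
  exact h

/-- First moment of a linear form. -/
theorem mlin {x : ι → ℝ} (h0 : ∀ i, 0 ≤ x i) (h1 : ∀ i, x i < 1) (c : ι → ℝ) :
    HasSum (fun τ : ι → ℕ => (∑ i, c i * (τ i : ℝ)) * wt x τ)
      (ZZ x * ∑ i, c i * mu x i) := by
  have h : HasSum (fun τ : ι → ℕ => ∑ i, c i * ((τ i : ℝ) * wt x τ))
      (∑ i, c i * (ZZ x * mu x i)) :=
    hasSum_sum fun i _ => (m1 h0 h1 i).mul_left (c i)
  have e1 : (fun τ : ι → ℕ => (∑ i, c i * (τ i : ℝ)) * wt x τ) =
      fun τ : ι → ℕ => ∑ i, c i * ((τ i : ℝ) * wt x τ) := by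
    funext τ
    rw [Finset.sum_mul]
    exact Finset.sum_congr rfl fun i _ => by ring
  have e2 : ZZ x * ∑ i, c i * mu x i = ∑ i, c i * (ZZ x * mu x i) := by
    rw [Finset.mul_sum]
    exact Finset.sum_congr rfl fun i _ => by ring
  rw [e1, e2]
  exact h

/-- Second moment of a linear form. -/
theorem mquad {x : ι → ℝ} (h0 : ∀ i, 0 ≤ x i) (h1 : ∀ i, x i < 1) (c : ι → ℝ) :
    HasSum (fun τ : ι → ℕ => (∑ i, c i * (τ i : ℝ)) ^ 2 * wt x τ)
      (ZZ x * ((∑ i, c i * mu x i) ^ 2 + ∑ i, c i ^ 2 * (mu x i ^ 2 + mu x i))) := by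
  classical
  have h : HasSum (fun τ : ι → ℕ => ∑ i, ∑ j, c i * c j * ((τ i : ℝ) * (τ j : ℝ) * wt x τ))
      (∑ i, ∑ j, c i * c j * (ZZ x * (mu x i * mu x j +
        if i = j then mu x i ^ 2 + mu x i else 0))) := by
    refine hasSum_sum fun i _ => hasSum_sum fun j _ => HasSum.mul_left _ ?_
    by_cases hij : i = j
    · subst hij
      have := m3 h0 h1 i
      simp only [if_true]
      have e : mu x i * mu x i + (mu x i ^ 2 + mu x i) = 2 * mu x i ^ 2 + mu x i := by ring
      rw [e]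
      exact this
    · simp only [hij, if_false, add_zero]
      exact m2 h0 h1 i j hij
  have e1 : (fun τ : ι → ℕ => (∑ i, c i * (τ i : ℝ)) ^ 2 * wt x τ) =
      fun τ : ι → ℕ => ∑ i, ∑ j, c i * c j * ((τ i : ℝ) * (τ j : ℝ) * wt x τ) := by
    funext τ
    rw [sq, Finset.sum_mul_sum, Finset.sum_mul]
    refine Finset.sum_congr rfl fun i _ => ?_
    rw [Finset.sum_mul]
    exact Finset.sum_congr rfl fun j _ => by ring
  have e2 : ZZ x * ((∑ i, c i * mu x i) ^ 2 + ∑ i, c i ^ 2 * (mu x i ^ 2 + mu x i)) =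
      ∑ i, ∑ j, c i * c j * (ZZ x * (mu x i * mu x j +
        if i = j then mu x i ^ 2 + mu x i else 0)) := by
    rw [sq, Finset.sum_mul_sum, ← Finset.sum_add_distrib, Finset.mul_sum]
    refine Finset.sum_congr rfl fun i _ => ?_
    have : ∀ j, c i * c j * (ZZ x * (mu x i * mu x j +
        if i = j then mu x i ^ 2 + mu x i else 0)) =
        ZZ x * (c i * mu x i * (c j * mu x j)) +
          if i = j then ZZ x * (c i ^ 2 * (mu x i ^ 2 + mu x i)) else 0 := by
      intro j
      by_cases hij : i = j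
      · subst hij
        simp only [if_true]
        ring
      · simp only [hij, if_false]
        ring
    simp_rw [this]
    rw [Finset.sum_add_distrib, Finset.sum_ite_eq, if_pos (Finset.mem_univ i), mul_add,
      Finset.mul_sum]
  rw [e1, e2]
  exact h

end Pool.Agent.Lib_helper5.GG
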